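import Pool.Agent.helper78.EQ.Spec

/-!
# MOD GAM: decay of the Gamma function
-/

set_option autoImplicit false

open Complex MeasureTheory Set Metric

namespace Pool.Agent.EQ

theorem helper59_int (a r : ℝ) (ha : 0 < a) (hr : 0 < r) :
    IntegrableOn (fun t : ℝ => t ^ (a - 1) * Real.exp (-(r * t))) (Ioi 0) := by
  have h := integrableOn_rpow_mul_exp_neg_mul_rpow (p := 1) (s := a - 1) (b := r)
    (by linarith) one_pos hr
  refine h.congr_fun (fun t _ => ?_) measurableSet_Ioi
  simp only [Real.rpow_one, neg_mul]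

theorem helper59_meas (a r : ℂ) : AEStronglyMeasurable
    (fun t : ℝ => (t : ℂ) ^ (a - 1) * Complex.exp (-(r * t))) (volume.restrict (Ioi 0)) := by
  refine ContinuousOn.aestronglyMeasurable (fun t ht => ?_) measurableSet_Ioi
  have ht0 : 0 < t := ht
  refine ContinuousWithinAt.mul ?_ ?_
  · refine ContinuousAt.continuousWithinAt ?_
    exact (continuousAt_cpow_const (Complex.ofReal_mem_slitPlane.2 ht0)).comp
      Complex.continuous_ofReal.continuousAt
  · exact (by fun_prop : Continuous fun t : ℝ => Complex.exp (-(r * t))).continuousWithinAt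

theorem helper59_lap (a : ℂ) (ha : 0 < a.re) (r : ℂ) (hr : 0 < r.re) :
    ∫ t : ℝ in Ioi 0, (t : ℂ) ^ (a - 1) * Complex.exp (-(r * t)) =
      (1 / r) ^ a * Complex.Gamma a := by
  set U : Set ℂ := {r : ℂ | 0 < r.re} with hU
  have hUo : IsOpen U := isOpen_lt continuous_const Complex.continuous_re
  have hUc : IsPreconnected U := (convex_halfSpace_re_gt 0).isPreconnected
  have hf : DifferentiableOn ℂ
      (fun r : ℂ => ∫ t : ℝ in Ioi 0, (t : ℂ) ^ (a - 1) * Complex.exp (-(r * t))) U := by
    intro r₀ hr₀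
    have hr0 : 0 < r₀.re := hr₀
    have hb : ∀ r ∈ ball r₀ (r₀.re / 2), r₀.re / 2 < r.re := by
      intro r hr
      have h1 : |(r - r₀).re| < r₀.re / 2 :=
        lt_of_le_of_lt (Complex.abs_re_le_norm _) (mem_ball_iff_norm.1 hr)
      rw [Complex.sub_re] at h1
      have := (abs_lt.1 h1).1
      linarith
    have key := hasDerivAt_integral_of_dominated_loc_of_deriv_le
      (μ := volume.restrict (Ioi (0 : ℝ)))
      (F := fun (r : ℂ) (t : ℝ) => (t : ℂ) ^ (a - 1) * Complex.exp (-(r * t)))
      (F' := fun (r : ℂ) (t : ℝ) => (t : ℂ) ^ (a - 1) * (Complex.exp (-(r * t)) * (-(t : ℂ))))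
      (x₀ := r₀) (s := ball r₀ (r₀.re / 2))
      (bound := fun t : ℝ => t ^ (a.re + 1 - 1) * Real.exp (-(r₀.re / 2 * t)))
      (ball_mem_nhds r₀ (by positivity)) ?_ ?_ ?_ ?_ ?_ ?_
    · exact key.2.differentiableAt.differentiableWithinAt
    · exact Filter.Eventually.of_forall fun r => helper59_meas a r
    · refine (helper59_int a.re r₀.re ha hr0).mono' (helper59_meas a r₀) ?_
      refine (ae_restrict_iff' measurableSet_Ioi).2 (Filter.Eventually.of_forall fun t ht => ?_)
      have ht0 : 0 < t := ht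
      rw [norm_mul, Complex.norm_cpow_eq_rpow_re_of_pos ht0, Complex.norm_exp]
      refine le_of_eq ?_
      congr 2
      simp
    · refine ((helper59_meas a r₀).mul
        (Complex.continuous_ofReal.neg.aestronglyMeasurable)).congr ?_
      refine Filter.Eventually.of_forall fun t => ?_
      simp only [Pi.mul_apply, Pi.neg_apply]
      ring
    · refine (ae_restrict_iff' measurableSet_Ioi).2 (Filter.Eventually.of_forall fun t ht r hr => ?_)
      have ht0 : 0 < t := ht
      rw [norm_mul, norm_mul, norm_neg, Complex.norm_cpow_eq_rpow_re_of_pos ht0, Complex.norm_exp,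
        Complex.norm_real, Real.norm_eq_abs, abs_of_pos ht0]
      have h1 : (-(r * (t : ℂ))).re = -(r.re * t) := by simp
      rw [h1]
      have h2 : t ^ (a.re + 1 - 1) = t ^ ((a - 1).re) * t := by
        rw [← Real.rpow_add_one ht0.ne']
        congr 1
        simp
      rw [h2]
      have h3 : Real.exp (-(r.re * t)) ≤ Real.exp (-(r₀.re / 2 * t)) := by
        apply Real.exp_le_exp.2
        have := mul_lt_mul_of_pos_right (hb r hr) ht0
        linarith
      have h4 : 0 ≤ t ^ ((a - 1).re) := (Real.rpow_pos_of_pos ht0 _).le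
      calc t ^ ((a - 1).re) * (Real.exp (-(r.re * t)) * t)
          = t ^ ((a - 1).re) * t * Real.exp (-(r.re * t)) := by ring
        _ ≤ t ^ ((a - 1).re) * t * Real.exp (-(r₀.re / 2 * t)) :=
          mul_le_mul_of_nonneg_left h3 (mul_nonneg h4 ht0.le)
    · exact helper59_int (a.re + 1) (r₀.re / 2) (by linarith) (by linarith)
    · refine Filter.Eventually.of_forall fun t r _ => ?_
      refine HasDerivAt.const_mul _ ?_
      have h1 : HasDerivAt (fun r : ℂ => -(r * (t : ℂ))) (-(t : ℂ)) r := by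
        have h2 := ((hasDerivAt_id r).mul_const (t : ℂ)).neg
        rw [one_mul] at h2
        exact h2
      exact h1.cexp
  have hg : DifferentiableOn ℂ (fun r : ℂ => (1 / r) ^ a * Complex.Gamma a) U := by
    intro r₀ hr₀
    have hr0 : 0 < r₀.re := hr₀
    have hne : r₀ ≠ 0 := by
      rintro rfl
      simp at hr0
    refine DifferentiableAt.differentiableWithinAt ?_
    refine DifferentiableAt.mul_const ?_ _
    refine DifferentiableAt.cpow ?_ (differentiableAt_const _) ?_
    · exact (differentiableAt_const _).div differentiableAt_id hne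
    · left
      rw [one_div, Complex.inv_re]
      exact div_pos hr0 (Complex.normSq_pos.2 hne)
  have hfg := (hf.analyticOnNhd hUo).eqOn_of_preconnected_of_frequently_eq
    (hg.analyticOnNhd hUo) hUc (z₀ := 1) (by simp [hU]) ?_
  · exact hfg hr
  · have ht : Filter.Tendsto (fun n : ℕ => (1 : ℂ) + 1 / ((n : ℂ) + 1)) Filter.atTop
        (nhdsWithin 1 {(1 : ℂ)}ᶜ) := by
      refine tendsto_nhdsWithin_iff.2 ⟨?_, Filter.Eventually.of_forall fun n => ?_⟩
      · have := (tendsto_one_div_add_atTop_nhds_zero_nat (𝕜 := ℂ)).const_add (1 : ℂ)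
        simpa using this
      · have h1 : ((n : ℂ) + 1) ≠ 0 := by exact_mod_cast Nat.succ_ne_zero n
        simp [h1]
    refine ht.frequently (Filter.Frequently.of_forall fun n => ?_)
    have h1 : (1 : ℂ) + 1 / ((n : ℂ) + 1) = ((1 + 1 / ((n : ℝ) + 1) : ℝ) : ℂ) := by push_cast; rfl
    rw [h1]
    exact Complex.integral_cpow_mul_exp_neg_mul_Ioi ha (by positivity)

theorem helper59_gam_key (x y φ : ℝ) (hx : 0 < x) (hφ : φ = 1 ∨ φ = -1) :
    ‖Complex.Gamma ((x : ℂ) + y * I)‖ ≤
      Real.exp (-(φ * y)) * ((1 / Real.cos 1) ^ x * Real.Gamma x) := by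
  have hc : 0 < Real.cos 1 := Real.cos_one_pos
  have hcφ : Real.cos φ = Real.cos 1 := by
    rcases hφ with rfl | rfl
    · rfl
    · exact Real.cos_neg 1
  have habs : |φ| = 1 := by
    rcases hφ with rfl | rfl <;> simp
  set r : ℂ := Complex.exp (φ * I) with hr
  have hrre : r.re = Real.cos 1 := by
    rw [hr, Complex.exp_ofReal_mul_I_re, hcφ]
  have ha : ((x : ℂ) + y * I).re = x := by simp
  have h1 := helper59_lap ((x : ℂ) + y * I) (by rw [ha]; exact hx) r (by rw [hrre]; exact hc)
  have h2 : ((1 : ℂ) / r) ^ ((x : ℂ) + y * I) =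
      Complex.exp (-(φ * I) * ((x : ℂ) + y * I)) := by
    have h3 : (1 : ℂ) / r = Complex.exp (-(φ * I)) := by
      rw [hr, Complex.exp_neg, one_div]
    have h4 : Complex.log (Complex.exp (-(φ * I))) = -(φ * I) := by
      apply Complex.log_exp
      · have h5 : (-((φ : ℂ) * I)).im = -φ := by simp
        rw [h5]
        have := Real.pi_gt_three
        have := (abs_le.1 habs.le).2
        linarith
      · have h5 : (-((φ : ℂ) * I)).im = -φ := by simp
        rw [h5]
        have := Real.pi_gt_three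
        have := (abs_le.1 habs.le).1
        linarith
    rw [h3, Complex.cpow_def_of_ne_zero (Complex.exp_ne_zero _), h4]
  have h3 : ‖((1 : ℂ) / r) ^ ((x : ℂ) + y * I)‖ = Real.exp (φ * y) := by
    rw [h2, Complex.norm_exp]
    congr 1
    simp
  have h4 : ‖∫ t : ℝ in Ioi 0, (t : ℂ) ^ ((x : ℂ) + y * I - 1) * Complex.exp (-(r * t))‖ ≤
      (1 / Real.cos 1) ^ x * Real.Gamma x := by
    rw [← Real.integral_rpow_mul_exp_neg_mul_Ioi hx hc]
    refine (norm_integral_le_integral_norm _).trans (le_of_eq ?_)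
    refine setIntegral_congr_fun measurableSet_Ioi fun t ht => ?_
    have ht0 : 0 < t := ht
    simp only [norm_mul, Complex.norm_cpow_eq_rpow_re_of_pos ht0, Complex.norm_exp]
    congr 2
    · simp
    · simp [hrre]
  rw [h1, norm_mul, h3] at h4
  have h5 : 0 < Real.exp (φ * y) := Real.exp_pos _
  rw [Real.exp_neg, inv_mul_eq_div, le_div_iff₀ h5, mul_comm]
  exact h4

theorem GAM : GAM_stmt := by
  intro a ha
  have hc : 0 < Real.cos 1 := Real.cos_one_pos
  have hcont : ContinuousOn (fun x : ℝ => (1 / Real.cos 1) ^ x * Real.Gamma x) (Icc a 6) := by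
    refine ContinuousOn.mul ?_ ?_
    · exact (Real.continuous_const_rpow (by positivity)).continuousOn
    · intro x hx
      have hx0 : 0 < x := lt_of_lt_of_le ha hx.1
      refine (Real.differentiableAt_Gamma fun m => ?_).continuousAt.continuousWithinAt
      have : (0 : ℝ) ≤ m := Nat.cast_nonneg m
      linarith
  obtain ⟨M, hM⟩ := isCompact_Icc.exists_bound_of_continuousOn hcont
  refine ⟨max M 1, lt_of_lt_of_le one_pos (le_max_right _ _), fun x y hax hx6 => ?_⟩
  have hx : 0 < x := lt_of_lt_of_le ha hax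
  obtain ⟨φ, hφ, hφy⟩ : ∃ φ : ℝ, (φ = 1 ∨ φ = -1) ∧ φ * y = |y| := by
    rcases le_total 0 y with h | h
    · exact ⟨1, Or.inl rfl, by rw [abs_of_nonneg h, one_mul]⟩
    · exact ⟨-1, Or.inr rfl, by rw [abs_of_nonpos h, neg_one_mul]⟩
  have h1 := helper59_gam_key x y φ hx hφ
  rw [hφy] at h1
  have h2 : (1 / Real.cos 1) ^ x * Real.Gamma x ≤ max M 1 :=
    ((le_abs_self _).trans (hM x ⟨hax, hx6⟩)).trans (le_max_left _ _)
  calc ‖Complex.Gamma ((x : ℂ) + y * I)‖ ≤ Real.exp (-|y|) * ((1 / Real.cos 1) ^ x * Real.Gamma x) := h1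
    _ ≤ Real.exp (-|y|) * max M 1 := mul_le_mul_of_nonneg_left h2 (Real.exp_pos _).le
    _ = max M 1 * Real.exp (-|y|) := mul_comm _ _

end Pool.Agent.EQ
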